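import Pool.Agent.Helper27.KN.Comp

set_option autoImplicit false

namespace Pool.Agent.Helper27.KN

open Finset Polynomial

/-- Polynomial codes. -/
theorem exists_code {ι F : Type} [Fintype ι] [DecidableEq ι] [Field F] [Fintype F] (A : Finset ι) (d ρ : ℕ)
    (hA : Fintype.card F ^ 2 ≤ A.card) (hι : Fintype.card ι ≤ Fintype.card F ^ d)
    (hbig : 2 * ρ + 2 * ρ * d < Fintype.card F) : Nonempty (Code A ρ) := by
  classical
  have h1 : Fintype.card (F × F) ≤ Fintype.card A := by
    rw [Fintype.card_prod, Fintype.card_coe, ← sq]; exact hA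
  obtain ⟨g⟩ := Function.Embedding.nonempty_of_card_le h1
  have h2 : Fintype.card ι ≤ Fintype.card (Fin d → F) := by
    rw [Fintype.card_fun, Fintype.card_fin]; exact hι
  obtain ⟨c⟩ := Function.Embedding.nonempty_of_card_le h2
  let P : ι → F[X] := fun i => ((degreeLTEquiv F d).symm (c i)).1
  have hP : ∀ i j, i ≠ j → P i ≠ P j := by
    intro i j hij h
    exact hij (c.injective ((degreeLTEquiv F d).symm.injective (Subtype.ext h)))
  have hPd : ∀ i j, (P i - P j).degree < d := by
    intro i j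
    have := Submodule.sub_mem _ ((degreeLTEquiv F d).symm (c i)).2 ((degreeLTEquiv F d).symm (c j)).2
    exact mem_degreeLT.mp this
  let e : ι → (F ↪ ι) := fun i =>
    ⟨fun x => (g (x, (P i).eval x)).1, fun x y h => by
      have := g.injective (Subtype.ext h)
      exact congrArg Prod.fst this⟩
  refine ⟨⟨fun i => univ.map (e i), ?_, Fintype.card F, d, ?_, ?_, hbig⟩⟩
  · intro i a ha
    obtain ⟨x, _, rfl⟩ := mem_map.mp ha
    exact (g (x, (P i).eval x)).2
  · intro i
    rw [card_map]; exact le_rfl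
  · intro i j hij
    by_contra hc
    push Not at hc
    let S : Finset F := univ.filter fun x => (P i).eval x = (P j).eval x
    have hS : univ.map (e i) ∩ univ.map (e j) ⊆ S.map (e i) := by
      intro a ha
      obtain ⟨ha1, ha2⟩ := mem_inter.mp ha
      obtain ⟨x, _, rfl⟩ := mem_map.mp ha1
      obtain ⟨y, _, hy⟩ := mem_map.mp ha2
      have h3 : (y, (P j).eval y) = (x, (P i).eval x) := g.injective (Subtype.ext hy)
      have h4 : y = x := congrArg Prod.fst h3
      have h5 : (P j).eval y = (P i).eval x := congrArg Prod.snd h3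
      subst h4
      exact mem_map.mpr ⟨y, mem_filter.mpr ⟨mem_univ _, h5.symm⟩, rfl⟩
    have h6 := card_le_card hS
    rw [card_map] at h6
    apply hP i j hij
    apply Polynomial.eq_of_degree_sub_lt_of_eval_finset_eq S
    · refine (hPd i j).trans_le ?_
      exact_mod_cast (by omega : d ≤ S.card)
    · intro x hx
      exact (mem_filter.mp hx).2

/-- Exponents of the tower. -/
def ex (K m : ℕ) : ℕ := 6 * 3 ^ K * 3 ^ (K - m)

theorem ex_succ {K m : ℕ} (hm : m < K) : ex K m = 3 * ex K (m + 1) := by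
  unfold ex
  have : K - m = (K - (m + 1)) + 1 := by omega
  rw [this, pow_succ]; ring

theorem le_ex (K m : ℕ) : 6 * 3 ^ K ≤ ex K m := Nat.le_mul_of_pos_right _ (by positivity)

/-- Initial segments. -/
def seg (s t : ℕ) : Finset (Fin s) := univ.filter fun i => i.val < t

theorem mem_seg {s t : ℕ} {i : Fin s} : i ∈ seg s t ↔ i.val < t := by simp [seg]

theorem card_seg {s t : ℕ} (h : t ≤ s) : (seg s t).card = t := by
  have : seg s t = (univ : Finset (Fin t)).map (Fin.castLEEmb h) := by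
    ext i
    rw [mem_seg, mem_map]
    constructor
    · intro hi; exact ⟨⟨i.val, hi⟩, mem_univ _, Fin.ext rfl⟩
    · rintro ⟨j, _, rfl⟩; exact j.2
  rw [this, card_map, card_univ, Fintype.card_fin]

/-- Size of a block. -/
def bs (K : ℕ) : ℕ := 2 ^ (2 * ex K 0 + 1)

/-- Sizes of the coordinate subspaces. -/
def rr (K m : ℕ) : ℕ := 2 ^ (2 * ex K m)

theorem rr_pos (K m : ℕ) : 1 ≤ rr K m := Nat.one_le_two_pow

theorem ex_anti {K m : ℕ} : ex K m ≤ ex K 0 := by
  unfold ex
  apply Nat.mul_le_mul_left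
  exact Nat.pow_le_pow_right (by norm_num) (by omega)

theorem rr_lt_bs (K m : ℕ) : rr K m < bs K := by
  unfold rr bs
  apply Nat.pow_lt_pow_right (by norm_num)
  have := ex_anti (K := K) (m := m)
  omega

theorem six_rr {K m : ℕ} (hm : m < K) : 6 * rr K (m + 1) * (1 + 3 ^ K) < 2 ^ ex K m := by
  rw [ex_succ hm]
  unfold rr
  have h1 : 6 * (1 + 3 ^ K) < 2 ^ ex K (m + 1) := by
    have h2 := le_ex K (m + 1)
    have h3 : 1 ≤ 3 ^ K := Nat.one_le_pow _ _ (by norm_num)
    have h4 : 6 * (1 + 3 ^ K) ≤ 2 * (6 * 3 ^ K) := by omega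
    have h5 : ∀ n : ℕ, 6 ≤ n → 2 * n < 2 ^ n := by
      intro n hn
      induction n, hn using Nat.le_induction with
      | base => norm_num
      | succ n hn ih => rw [pow_succ]; omega
    calc 6 * (1 + 3 ^ K) ≤ 2 * (6 * 3 ^ K) := h4
      _ < 2 ^ (6 * 3 ^ K) := h5 _ (by omega)
      _ ≤ 2 ^ ex K (m + 1) := Nat.pow_le_pow_right (by norm_num) h2
  have h6 : 2 ^ (3 * ex K (m + 1)) = 2 ^ (2 * ex K (m + 1)) * 2 ^ ex K (m + 1) := by
    rw [← pow_add]; congr 1; ring
  rw [h6]
  have h7 : 0 < 2 ^ (2 * ex K (m + 1)) := by positivity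
  calc 6 * 2 ^ (2 * ex K (m + 1)) * (1 + 3 ^ K) = 2 ^ (2 * ex K (m + 1)) * (6 * (1 + 3 ^ K)) := by ring
    _ < _ := Nat.mul_lt_mul_of_pos_left h1 h7

theorem five_rr {K m : ℕ} (hm : m < K) : 5 * rr K (m + 1) ≤ rr K m := by
  have h1 := six_rr hm
  have h2 : 2 ^ ex K m ≤ rr K m := Nat.pow_le_pow_right (by norm_num) (by omega)
  have h3 : 1 ≤ 3 ^ K := Nat.one_le_pow _ _ (by norm_num)
  have h4 : 6 * rr K (m + 1) ≤ 6 * rr K (m + 1) * (1 + 3 ^ K) := Nat.le_mul_of_pos_right _ (by omega)
  omega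

theorem exists_tower (K : ℕ) : ∃ T, Tower K (fun m => seg (bs K) (rr K m)) T := by
  have hc : ∀ m, (seg (bs K) (rr K m)).card = rr K m := fun m => card_seg (rr_lt_bs K m).le
  have hlev : ∀ m, ∃ T : (Fin (bs K) → ℝ) ≃ (Fin (bs K) → ℝ),
      m < K → Lev (seg (bs K) (rr K m)) (3 * (seg (bs K) (rr K (m + 1))).card) T := by
    intro m
    by_cases hm : m < K
    · have hne : ex K m ≠ 0 := by
        have := le_ex K m
        have h3 : 1 ≤ 3 ^ K := Nat.one_le_pow _ _ (by norm_num)
        omega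
      haveI : Fact (Nat.Prime 2) := ⟨Nat.prime_two⟩
      letI : Fintype (GaloisField 2 (ex K m)) := Fintype.ofFinite _
      have hq : Fintype.card (GaloisField 2 (ex K m)) = 2 ^ ex K m := by
        rw [← Nat.card_eq_fintype_card]; exact GaloisField.card 2 _ hne
      obtain ⟨c⟩ := exists_code (F := GaloisField 2 (ex K m)) (seg (bs K) (rr K m)) (3 ^ K)
        (3 * (seg (bs K) (rr K (m + 1))).card)
        (by rw [hq, hc, ← pow_mul, mul_comm]; exact le_rfl)
        (by
          rw [hq, Fintype.card_fin, ← pow_mul]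
          apply Nat.pow_le_pow_right (by norm_num)
          have h1 := ex_succ hm
          have h2 : ex K 0 = 6 * 3 ^ K * 3 ^ K := rfl
          have h3 : 3 * (6 * 3 ^ K) ≤ ex K m := by
            rw [h1]; exact Nat.mul_le_mul_left _ (le_ex K (m + 1))
          have h4 : 1 ≤ 3 ^ K := Nat.one_le_pow _ _ (by norm_num)
          calc 2 * ex K 0 + 1 ≤ 3 * (6 * 3 ^ K) * 3 ^ K := by
                rw [h2]
                have : 1 ≤ 6 * 3 ^ K * 3 ^ K := Nat.mul_pos (by omega) (by omega)
                nlinarith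
            _ ≤ ex K m * 3 ^ K := Nat.mul_le_mul_right _ h3)
        (by
          rw [hq, hc]
          have := six_rr hm
          calc 2 * (3 * rr K (m + 1)) + 2 * (3 * rr K (m + 1)) * 3 ^ K = 6 * rr K (m + 1) * (1 + 3 ^ K) := by ring
            _ < _ := this)
      obtain ⟨T, hT⟩ := exists_lev c
      exact ⟨T, fun _ => hT⟩
    · exact ⟨Equiv.refl _, fun h => absurd h hm⟩
  choose T hT using hlev
  refine ⟨T, ⟨fun m hm => hT m hm, fun m hm => ?_, fun m hm => ?_⟩⟩
  · rw [hc, hc]; exact five_rr hm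
  · intro i hi
    rw [mem_seg] at hi ⊢
    have := five_rr hm
    omega

/-- A block: a bijection interchanging sparse vectors and coordinate subspaces on all levels. -/
theorem exists_block (K : ℕ) : ∃ T : (Fin (bs K) → ℝ) ≃ (Fin (bs K) → ℝ),
    (∃ C, LipschitzWith C T) ∧ (∃ C, LipschitzWith C T.symm) ∧
    (∀ m, m < K → ∀ (x : Fin (bs K) → ℝ) (δ : ℝ), 0 ≤ δ → (univ.filter fun i => δ < |x i|).card ≤ rr K (m + 1) →
      ∀ i : Fin (bs K), rr K m ≤ i.val → |T x i| ≤ 45 ^ (m + 1) * δ) ∧
    (∀ m, m < K → ∀ (y : Fin (bs K) → ℝ) (δ : ℝ), 0 ≤ δ → (∀ i : Fin (bs K), rr K (m + 1) ≤ i.val → |y i| ≤ δ) →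
      (univ.filter fun i => 45 ^ (m + 1) * δ < |T.symm y i|).card ≤ rr K m) := by
  classical
  obtain ⟨T, hT⟩ := exists_tower K
  have hc : ∀ m, (seg (bs K) (rr K m)).card = rr K m := fun m => card_seg (rr_lt_bs K m).le
  refine ⟨cmp T 0 K, hT.lip K 0 (by omega), hT.lip_symm K 0 (by omega), ?_, ?_⟩
  · intro m hm x δ hδ hx i hi
    let x0 : Fin (bs K) → ℝ := fun i => if δ < |x i| then x i else 0
    have h1 : Sp (rr K (m + 1)) x0 := by
      refine sp_of_subset (S := univ.filter fun i => δ < |x i|) ?_ hx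
      intro i hi
      rw [mem_filter]
      refine ⟨mem_univ _, ?_⟩
      by_contra hcc
      exact hi (if_neg hcc)
    have h2 : dist x x0 ≤ δ := by
      rw [dist_pi_le_iff hδ]
      intro i
      by_cases hcc : δ < |x i|
      · have : x0 i = x i := if_pos hcc
        rw [this, dist_self]; exact hδ
      · have : x0 i = 0 := if_neg hcc
        rw [this, Real.dist_eq, sub_zero]; exact not_lt.mp hcc
    have h1' : Sp (seg (bs K) (rr K (0 + m + 1))).card x0 := by rw [hc, Nat.zero_add]; exact h1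
    obtain ⟨y0, hy0, hd⟩ := hT.fwd m 0 K hm (by omega) x x0 h1'
    have h3 : y0 i = 0 := hy0 i (by rw [mem_seg, Nat.zero_add]; omega)
    have h4 := dist_le_pi_dist (cmp T 0 K x) y0 i
    rw [h3, Real.dist_eq, sub_zero] at h4
    refine h4.trans (hd.trans ?_)
    exact mul_le_mul_of_nonneg_left h2 (by positivity)
  · intro m hm y δ hδ hy
    let y0 : Fin (bs K) → ℝ := fun i => if i.val < rr K (m + 1) then y i else 0
    have h2 : dist y y0 ≤ δ := by
      rw [dist_pi_le_iff hδ]
      intro i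
      by_cases hcc : i.val < rr K (m + 1)
      · have : y0 i = y i := if_pos hcc
        rw [this, dist_self]; exact hδ
      · have : y0 i = 0 := if_neg hcc
        rw [this, Real.dist_eq, sub_zero]; exact hy i (not_lt.mp hcc)
    obtain ⟨x0, hx0, hd⟩ := hT.bwd m 0 K hm (by omega) y y0 (fun i hi => by
      rw [mem_seg, Nat.zero_add] at hi
      exact if_neg hi)
    have hx0' : (nz x0).card ≤ rr K m := by
      have h7 : (nz x0).card ≤ (seg (bs K) (rr K (0 + m))).card := hx0
      rw [hc, Nat.zero_add] at h7; exact h7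
    refine (card_le_card ?_).trans hx0'
    intro i hi
    rw [mem_nz]
    intro h0
    have h5 := (mem_filter.mp hi).2
    have h4 := dist_le_pi_dist ((cmp T 0 K).symm y) x0 i
    rw [h0, Real.dist_eq, sub_zero] at h4
    have h6 := h4.trans (hd.trans (mul_le_mul_of_nonneg_left h2 (by positivity)))
    linarith

end Pool.Agent.Helper27.KN
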