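import Pool.Agent.Helper27.KN.Sparse

set_option autoImplicit false

namespace Pool.Agent.Helper27.KN

open Finset

variable {ι : Type} [Fintype ι] [DecidableEq ι]

/-- Compositions of consecutive maps, the highest index is applied first. -/
def cmp (T : ℕ → ((ι → ℝ) ≃ (ι → ℝ))) : ℕ → ℕ → ((ι → ℝ) ≃ (ι → ℝ))
  | _, 0 => Equiv.refl _
  | m, n + 1 => (cmp T (m + 1) n).trans (T m)

theorem cmp_succ (T : ℕ → ((ι → ℝ) ≃ (ι → ℝ))) (m n : ℕ) (h : ι → ℝ) :
    cmp T m (n + 1) h = T m (cmp T (m + 1) n h) := rfl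

theorem cmp_succ_symm (T : ℕ → ((ι → ℝ) ≃ (ι → ℝ))) (m n : ℕ) (y : ι → ℝ) :
    (cmp T m (n + 1)).symm y = (cmp T (m + 1) n).symm ((T m).symm y) := rfl

/-- Total number of changed coordinates. -/
def sg (r : ℕ → ℕ) : ℕ → ℕ → ℕ
  | _, 0 => 0
  | m, n + 1 => (r m + 3 * r (m + 1)) + sg r (m + 1) n

theorem sg_le (r : ℕ → ℕ) (n : ℕ) : ∀ m, (∀ j, m ≤ j → j < m + n → 5 * r (j + 1) ≤ r j) → sg r m n ≤ 2 * r m := by
  induction n with
  | zero => intro m _; exact Nat.zero_le _
  | succ n ih =>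
    intro m h
    have h1 := ih (m + 1) (fun j h1 h2 => h j (by omega) (by omega))
    have h2 := h m le_rfl (by omega)
    show (r m + 3 * r (m + 1)) + sg r (m + 1) n ≤ 2 * r m
    omega

variable {K : ℕ} {A : ℕ → Finset ι} {T : ℕ → ((ι → ℝ) ≃ (ι → ℝ))}

/-- The hypotheses on a tower. -/
structure Tower (K : ℕ) (A : ℕ → Finset ι) (T : ℕ → ((ι → ℝ) ≃ (ι → ℝ))) : Prop where
  lev : ∀ m, m < K → Lev (A m) (3 * (A (m + 1)).card) (T m)
  five : ∀ m, m < K → 5 * (A (m + 1)).card ≤ (A m).card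
  sub : ∀ m, m < K → A (m + 1) ⊆ A m

theorem Tower.sub_le (h : Tower K A T) {m : ℕ} (l : ℕ) (hl : m + l ≤ K) : A (m + l) ⊆ A m := by
  induction l with
  | zero => exact subset_rfl
  | succ l ih => exact (h.sub (m + l) (by omega)).trans (ih (by omega))

theorem Tower.sg_le' (h : Tower K A T) (m n : ℕ) (hmn : m + n ≤ K) :
    sg (fun j => (A j).card) m n ≤ 2 * (A m).card :=
  sg_le _ n m fun j _ h2 => h.five j (by omega)

theorem Tower.change (h : Tower K A T) (n : ℕ) : ∀ m, m + n ≤ K → ∀ x,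
    Sp (sg (fun j => (A j).card) m n) (cmp T m n x - x) := by
  induction n with
  | zero => intro m _ x; rw [show cmp T m 0 x - x = 0 from sub_self x]; exact sp_zero _
  | succ n ih =>
    intro m hm x
    have h1 := ih (m + 1) (by omega) x
    have h2 := (h.lev m (by omega)).p3 (cmp T (m + 1) n x)
    have h3 := h2.add h1
    rw [cmp_succ]
    rw [sub_add_sub_cancel] at h3
    exact h3

theorem Tower.change_symm (h : Tower K A T) (m n : ℕ) (hm : m + n ≤ K) (y : ι → ℝ) :
    Sp (sg (fun j => (A j).card) m n) ((cmp T m n).symm y - y) := by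
  have h1 := (h.change n m hm ((cmp T m n).symm y)).neg
  rw [Equiv.apply_symm_apply, neg_sub] at h1
  exact h1

theorem Tower.lip (h : Tower K A T) (n : ℕ) : ∀ m, m + n ≤ K → ∃ C, LipschitzWith C (cmp T m n) := by
  induction n with
  | zero => intro m _; exact ⟨1, LipschitzWith.id⟩
  | succ n ih =>
    intro m hm
    obtain ⟨C, hC⟩ := ih (m + 1) (by omega)
    exact ⟨_, (h.lev m (by omega)).lip.comp hC⟩

theorem Tower.lip_symm (h : Tower K A T) (n : ℕ) : ∀ m, m + n ≤ K → ∃ C, LipschitzWith C (cmp T m n).symm := by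
  induction n with
  | zero => intro m _; exact ⟨1, LipschitzWith.id⟩
  | succ n ih =>
    intro m hm
    obtain ⟨C, hC⟩ := ih (m + 1) (by omega)
    exact ⟨_, hC.comp (h.lev m (by omega)).lip'⟩

theorem dist_add_right' (a b z : ι → ℝ) : dist (a + z) (b + z) = dist a b := dist_add_right a b z

/-- Sparse vectors go to coordinate subspaces. -/
theorem Tower.fwd (h : Tower K A T) (l : ℕ) : ∀ m n, l < n → m + n ≤ K → ∀ x x0,
    Sp (A (m + l + 1)).card x0 → ∃ y0 : ι → ℝ, (∀ i, i ∉ A (m + l) → y0 i = 0) ∧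
      dist (cmp T m n x) y0 ≤ 45 ^ (l + 1) * dist x x0 := by
  induction l with
  | zero =>
    intro m n hn hm x x0 hx0
    obtain ⟨n, rfl⟩ : ∃ k, n = k + 1 := ⟨n - 1, by omega⟩
    have hL := h.lev m (by omega)
    set z := cmp T (m + 1) n x - x with hz
    have hz1 : Sp (sg (fun j => (A j).card) (m + 1) n) z := h.change n (m + 1) (by omega) x
    have hz2 := h.sg_le' (m + 1) n (by omega)
    have hw : Sp (3 * (A (m + 1)).card) (x0 + z) := (hx0.add hz1).mono (by
      show (A (m + 0 + 1)).card + _ ≤ _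
      rw [Nat.add_zero]; omega)
    refine ⟨T m (x0 + z), fun i hi => hL.p1 _ hw i hi, ?_⟩
    rw [cmp_succ]
    have h1 : cmp T (m + 1) n x = x + z := by rw [hz]; abel
    rw [h1]
    have h2 := hL.lip.dist_le_mul (x + z) (x0 + z)
    rw [dist_add_right'] at h2
    simpa using h2
  | succ l ih =>
    intro m n hn hm x x0 hx0
    obtain ⟨n, rfl⟩ : ∃ k, n = k + 1 := ⟨n - 1, by omega⟩
    have hL := h.lev m (by omega)
    have e1 : m + (l + 1) = m + 1 + l := by omega
    rw [e1] at hx0 ⊢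
    obtain ⟨y0, hy0, hd⟩ := ih (m + 1) n (by omega) (by omega) x x0 hx0
    refine ⟨y0, hy0, ?_⟩
    have hsub : A (m + 1 + l) ⊆ A (m + 1) := h.sub_le l (by omega)
    have hs : Sp (3 * (A (m + 1)).card) y0 := by
      refine sp_of_subset (S := A (m + 1 + l)) ?_ ?_
      · intro i hi
        by_contra hc
        exact hi (hy0 i hc)
      · have := card_le_card hsub
        omega
    have hfix : T m y0 = y0 := hL.p2 _ hs fun i hi => hy0 i fun hc => hi (h.sub m (by omega) (hsub hc))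
    rw [cmp_succ]
    have h2 := hL.lip.dist_le_mul (cmp T (m + 1) n x) y0
    rw [hfix] at h2
    refine h2.trans ?_
    have h9 : ((45 : NNReal) : ℝ) = 45 := by norm_num
    rw [h9, pow_succ]
    nlinarith [hd]

/-- Coordinate subspaces come from sparse vectors. -/
theorem Tower.bwd (h : Tower K A T) (l : ℕ) : ∀ m n, l < n → m + n ≤ K → ∀ y y0 : ι → ℝ,
    (∀ i, i ∉ A (m + l + 1) → y0 i = 0) → ∃ x0 : ι → ℝ, Sp (A (m + l)).card x0 ∧
      dist ((cmp T m n).symm y) x0 ≤ 45 ^ (l + 1) * dist y y0 := by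
  induction l with
  | zero =>
    intro m n hn hm y y0 hy0
    obtain ⟨n, rfl⟩ : ∃ k, n = k + 1 := ⟨n - 1, by omega⟩
    have hL := h.lev m (by omega)
    have hy0' : ∀ i, i ∉ A (m + 1) → y0 i = 0 := hy0
    have hs1 : Sp (A (m + 1)).card y0 := sp_of_subset (S := A (m + 1)) (fun i hi => by
      by_contra hc; exact hi (hy0' i hc)) le_rfl
    have hfix : T m y0 = y0 := hL.p2 _ (hs1.mono (by omega)) fun i hi => hy0' i fun hc => hi (h.sub m (by omega) hc)
    have hfix' : (T m).symm y0 = y0 := by rw [Equiv.symm_apply_eq]; exact hfix.symm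
    set y' := (T m).symm y with hy'
    set z := (cmp T (m + 1) n).symm y' - y' with hz
    have hz1 : Sp (sg (fun j => (A j).card) (m + 1) n) z := h.change_symm (m + 1) n (by omega) y'
    have hz2 := h.sg_le' (m + 1) n (by omega)
    have h5 := h.five m (by omega)
    refine ⟨y0 + z, (hs1.add hz1).mono (by show _ ≤ (A m).card; omega), ?_⟩
    rw [cmp_succ_symm, ← hy']
    have h1 : (cmp T (m + 1) n).symm y' = y' + z := by rw [hz]; abel
    rw [h1, dist_add_right']
    have h2 := hL.lip'.dist_le_mul y y0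
    rw [hfix', ← hy'] at h2
    simpa using h2
  | succ l ih =>
    intro m n hn hm y y0 hy0
    obtain ⟨n, rfl⟩ : ∃ k, n = k + 1 := ⟨n - 1, by omega⟩
    have hL := h.lev m (by omega)
    have e1 : m + (l + 1) = m + 1 + l := by omega
    rw [e1] at hy0 ⊢
    have hsub : A (m + 1 + l + 1) ⊆ A (m + 1) := h.sub_le (l + 1) (by omega)
    have hs : Sp (3 * (A (m + 1)).card) y0 := by
      refine sp_of_subset (S := A (m + 1 + l + 1)) ?_ ?_
      · intro i hi
        by_contra hc
        exact hi (hy0 i hc)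
      · have := card_le_card hsub
        omega
    have hfix : T m y0 = y0 := hL.p2 _ hs fun i hi => hy0 i fun hc => hi (h.sub m (by omega) (hsub hc))
    have hfix' : (T m).symm y0 = y0 := by rw [Equiv.symm_apply_eq]; exact hfix.symm
    obtain ⟨x0, hx0, hd⟩ := ih (m + 1) n (by omega) (by omega) ((T m).symm y) y0 hy0
    refine ⟨x0, hx0, ?_⟩
    rw [cmp_succ_symm]
    have h2 := hL.lip'.dist_le_mul y y0
    rw [hfix'] at h2
    have h9 : ((45 : NNReal) : ℝ) = 45 := by norm_num
    rw [h9] at h2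
    refine hd.trans ?_
    rw [pow_succ _ (l + 1)]
    have h3 : (0 : ℝ) ≤ 45 ^ (l + 1) := by positivity
    nlinarith [mul_le_mul_of_nonneg_left h2 h3]

end Pool.Agent.Helper27.KN
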