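import Pool.Agent.Helper27.KN.CodeEx

set_option autoImplicit false

namespace Pool.Agent.Helper27.KN

open Filter Topology Set

/-- A set with one extra point whose neighbourhoods are given by a filter. -/
def FSp {N : Type} (_F : Filter N) : Type := Option N

variable {N : Type} {F : Filter N}

/-- The extra point. -/
def pinf (F : Filter N) : FSp F := (none : Option N)

/-- Isolated points. -/
def pt (F : Filter N) (x : N) : FSp F := (some x : Option N)

theorem pt_inj {x y : N} (h : pt F x = pt F y) : x = y := Option.some_injective _ h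
theorem pt_ne (x : N) : pt F x ≠ pinf F := Option.some_ne_none x
theorem fcases (z : FSp F) : z = pinf F ∨ ∃ x, z = pt F x := by
  rcases z with _ | x
  · exact Or.inl rfl
  · exact Or.inr ⟨x, rfl⟩

instance : TopologicalSpace (FSp F) where
  IsOpen U := pinf F ∈ U → {x | pt F x ∈ U} ∈ F
  isOpen_univ := fun _ => univ_mem
  isOpen_inter U V hU hV := fun h => inter_mem (hU h.1) (hV h.2)
  isOpen_sUnion S hS := by
    rintro ⟨U, hU, h⟩
    exact mem_of_superset (hS U hU h) fun x hx => ⟨U, hU, hx⟩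

theorem isOpen_def {U : Set (FSp F)} : IsOpen U ↔ (pinf F ∈ U → {x | pt F x ∈ U} ∈ F) := Iff.rfl

theorem isOpen_of_notMem {U : Set (FSp F)} (h : pinf F ∉ U) : IsOpen U := fun h' => absurd h' h

theorem isClosed_of_mem {U : Set (FSp F)} (h : pinf F ∈ U) : IsClosed U :=
  ⟨isOpen_of_notMem fun h' => h' h⟩

/-- Clopen sets form a base. -/
theorem t35 (hF : F ≤ cofinite) : T35Space (FSp F) := by
  have hsing : ∀ x, IsClosed ({pt F x} : Set (FSp F)) := fun x => ⟨fun _ => by
    have : ({x}ᶜ : Set N) ∈ F := hF (finite_singleton x).compl_mem_cofinite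
    refine mem_of_superset this fun y hy hyx => hy (pt_inj hyx)⟩
  have : T1Space (FSp F) := ⟨fun z => by
    rcases fcases z with rfl | ⟨x, rfl⟩
    · exact isClosed_of_mem rfl
    · exact hsing x⟩
  have : CompletelyRegularSpace (FSp F) := ⟨by
    intro z K hK hz
    obtain ⟨V, hV, hzV, hVK⟩ : ∃ V : Set (FSp F), IsClopen V ∧ z ∈ V ∧ V ⊆ Kᶜ := by
      rcases fcases z with rfl | ⟨x, rfl⟩
      · refine ⟨Kᶜ, ⟨isClosed_of_mem hz, hK.isOpen_compl⟩, hz, subset_rfl⟩
      · refine ⟨{pt F x}, ⟨hsing x, isOpen_of_notMem ?_⟩, rfl, ?_⟩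
        · intro h; exact pt_ne x h.symm
        · rintro _ rfl; exact hz
    refine ⟨Vᶜ.indicator 1, ?_, by simpa, fun x hx => indicator_of_mem ?_ _⟩
    · exact hV.compl.continuous_indicator continuous_const
    · exact (mem_compl_iff V x).mpr fun hs => hVK hs hx⟩
  exact {}

theorem continuous_iff_mem {f : FSp F → ℝ} :
    Continuous f ↔ ∀ ε : ℝ, 0 < ε → {x | |f (pt F x) - f (pinf F)| < ε} ∈ F := by
  constructor
  · intro hf ε hε
    have h1 : IsOpen (f ⁻¹' (Metric.ball (f (pinf F)) ε)) := Metric.isOpen_ball.preimage hf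
    have h2 := isOpen_def.mp h1 (Metric.mem_ball_self hε)
    refine mem_of_superset h2 fun x hx => ?_
    have h3 : f (pt F x) ∈ Metric.ball (f (pinf F)) ε := hx
    rw [Metric.mem_ball, Real.dist_eq] at h3
    exact h3
  · intro h
    rw [continuous_def]
    intro U hU
    rw [isOpen_def]
    intro hp
    obtain ⟨ε, hε, hb⟩ := Metric.isOpen_iff.mp hU _ hp
    refine mem_of_superset (h ε hε) fun x hx => ?_
    apply hb
    rw [Metric.mem_ball, Real.dist_eq]
    exact hx

/-- A compact set has only finitely many points in a set whose complement is a neighbourhood. -/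
theorem finite_of_compact {F : Filter N} {C : Set (FSp F)} (hC : IsCompact C) {D : Set N} (hD : Dᶜ ∈ F)
    (hDC : ∀ x ∈ D, pt F x ∈ C) : D.Finite := by
  let U : Option D → Set (FSp F) := fun o => match o with
    | none => {z | ∀ x ∈ D, z ≠ pt F x}
    | some x => {pt F x.1}
  have hU : ∀ o, IsOpen (U o) := by
    rintro (_ | x)
    · rw [isOpen_def]
      intro _
      refine mem_of_superset hD fun y hy x hx h => hy ?_
      rw [pt_inj h]; exact hx
    · exact isOpen_of_notMem fun h => pt_ne x.1 h.symm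
  have hcov : C ⊆ ⋃ o, U o := by
    intro z hz
    by_cases h : ∃ x ∈ D, z = pt F x
    · obtain ⟨x, hx, rfl⟩ := h
      exact mem_iUnion.mpr ⟨some ⟨x, hx⟩, rfl⟩
    · push Not at h
      exact mem_iUnion.mpr ⟨none, h⟩
  obtain ⟨t, ht⟩ := hC.elim_finite_subcover U hU hcov
  have h1 : (some '' (univ : Set D) : Set (Option D)) ⊆ (t : Set (Option D)) := by
    rintro _ ⟨x, _, rfl⟩
    obtain ⟨o, ho, hx⟩ := mem_iUnion₂.mp (ht (hDC x.1 x.2))
    rcases o with _ | y
    · exact absurd rfl (hx x.1 x.2)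
    · have : x = y := Subtype.ext (pt_inj hx)
      rw [this]; exact ho
  have h2 : (univ : Set D).Finite := (t.finite_toSet.subset h1).of_finite_image (Option.some_injective _).injOn
  exact finite_coe_iff.mp (finite_univ_iff.mp h2)

/-- The index set of isolated points: one block for each node of the binary tree. -/
def NN : Type := Σ k : ℕ, (Fin k → Bool) × Fin (bs k)

instance : Countable NN := inferInstanceAs (Countable (Σ k : ℕ, (Fin k → Bool) × Fin (bs k)))

/-- Restriction of a branch. -/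
def rs (t : ℕ → Bool) (k : ℕ) : Fin k → Bool := fun i => t i

/-- The point of the block over the `k`-th node of a branch. -/
def nd (t : ℕ → Bool) (k : ℕ) (i : Fin (bs k)) : NN := ⟨k, (rs t k, i)⟩

/-- A point of a block. -/
def bl (k : ℕ) (s : Fin k → Bool) (i : Fin (bs k)) : NN := ⟨k, (s, i)⟩

/-- Thresholds. -/
def R (k m : ℕ) : ℕ := if m ≤ k then rr k m else 0

theorem R_of {k m : ℕ} (h : m ≤ k) : R k m = rr k m := if_pos h
theorem R_of_not {k m : ℕ} (h : k < m) : R k m = 0 := if_neg (by omega)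

theorem R_two {k m : ℕ} (h : m + 1 ≤ k) : 2 * R k (m + 1) ≤ R k m := by
  rw [R_of h, R_of (by omega)]
  have := five_rr (K := k) (m := m) (by omega)
  omega

/-- The filter of the first space. -/
def FX : Filter NN where
  sets := {U | ∀ (t : ℕ → Bool) (m : ℕ), ∃ k0, ∀ k, k0 ≤ k → ∀ i : Fin (bs k), R k m ≤ i.val → nd t k i ∈ U}
  univ_sets := fun t m => ⟨0, fun _ _ _ _ => mem_univ _⟩
  sets_of_superset := fun hU hUV t m => by
    obtain ⟨k0, h⟩ := hU t m
    exact ⟨k0, fun k hk i hi => hUV (h k hk i hi)⟩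
  inter_sets := fun hU hV t m => by
    obtain ⟨k0, h⟩ := hU t m
    obtain ⟨k1, h'⟩ := hV t m
    exact ⟨max k0 k1, fun k hk i hi => ⟨h k (by omega) i hi, h' k (by omega) i hi⟩⟩

theorem mem_FX {U : Set NN} : U ∈ FX ↔ ∀ (t : ℕ → Bool) (m : ℕ), ∃ k0, ∀ k, k0 ≤ k →
    ∀ i : Fin (bs k), R k m ≤ i.val → nd t k i ∈ U := Iff.rfl

/-- The filter of the second space. -/
def FY : Filter NN where
  sets := {U | ∀ (t : ℕ → Bool) (m : ℕ), ∃ k0, ∀ k, k0 ≤ k → ({i : Fin (bs k) | nd t k i ∉ U}).ncard ≤ R k m}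
  univ_sets := fun t m => ⟨0, fun k _ => by
    have h : {i : Fin (bs k) | nd t k i ∉ (univ : Set NN)} = ∅ := by
      rw [eq_empty_iff_forall_notMem]; intro i hi; exact hi (mem_univ _)
    rw [h, ncard_empty]; exact Nat.zero_le _⟩
  sets_of_superset := fun {U V} hU hUV t m => by
    obtain ⟨k0, hk0⟩ := hU t m
    refine ⟨k0, fun k hk => (ncard_le_ncard ?_ (toFinite _)).trans (hk0 k hk)⟩
    intro i hi hi'
    exact hi (hUV hi')
  inter_sets := fun {U V} hU hV t m => by
    obtain ⟨k1, hk1⟩ := hU t (m + 1)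
    obtain ⟨k2, hk2⟩ := hV t (m + 1)
    refine ⟨max (max k1 k2) (m + 1), fun k hk => ?_⟩
    have h1 := hk1 k (by omega)
    have h2 := hk2 k (by omega)
    have h3 := R_two (k := k) (m := m) (by omega)
    have h4 : {i : Fin (bs k) | nd t k i ∉ U ∩ V} ⊆
        {i : Fin (bs k) | nd t k i ∉ U} ∪ {i : Fin (bs k) | nd t k i ∉ V} := by
      intro i hi
      by_contra hc
      have hc1 : ¬ (nd t k i ∉ U ∨ nd t k i ∉ V) := hc
      push Not at hc1
      exact hi hc1
    have h5 := ncard_le_ncard h4 (toFinite _)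
    have h6 := ncard_union_le {i : Fin (bs k) | nd t k i ∉ U} {i : Fin (bs k) | nd t k i ∉ V}
    omega

theorem mem_FY {U : Set NN} : U ∈ FY ↔ ∀ (t : ℕ → Bool) (m : ℕ), ∃ k0, ∀ k, k0 ≤ k →
    ({i : Fin (bs k) | nd t k i ∉ U}).ncard ≤ R k m := Iff.rfl

theorem fin_bound {A : Set NN} (hA : A.Finite) : ∃ b, ∀ x ∈ A, x.1 < b := by
  obtain ⟨b, hb⟩ := (hA.image (fun x : NN => x.1)).bddAbove
  exact ⟨b + 1, fun x hx => Nat.lt_succ_of_le (hb (mem_image_of_mem (fun x : NN => x.1) hx))⟩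

theorem FX_le : FX ≤ cofinite := by
  intro U hU t m
  rw [mem_cofinite] at hU
  obtain ⟨b, hb⟩ := fin_bound hU
  refine ⟨b, fun k hk i _ => ?_⟩
  by_contra hc
  have : k < b := hb _ hc
  omega

theorem FY_le : FY ≤ cofinite := by
  intro U hU t m
  rw [mem_cofinite] at hU
  obtain ⟨b, hb⟩ := fin_bound hU
  refine ⟨b, fun k hk => ?_⟩
  have : {i : Fin (bs k) | nd t k i ∉ U} = ∅ := by
    rw [eq_empty_iff_forall_notMem]
    intro i hi
    have : k < b := hb _ hi
    omega
  rw [this, ncard_empty]; exact Nat.zero_le _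

theorem bs_pos (k : ℕ) : 0 < bs k := Nat.two_pow_pos _

theorem compact_finite (C : Set (FSp FY)) (hC : IsCompact C) : C.Finite := by
  have h0 : {x : NN | pt FY x ∈ C}.Finite := by
    let S : Set NN := {x : NN | pt FY x ∈ C}
    have hch : ∀ b : Σ k : ℕ, (Fin k → Bool), ∃ y : Fin (bs b.1), (∃ i : Fin (bs b.1), bl b.1 b.2 i ∈ S) →
        bl b.1 b.2 y ∈ S := by
      intro b
      by_cases h : ∃ i : Fin (bs b.1), bl b.1 b.2 i ∈ S
      · obtain ⟨i, hi⟩ := h
        exact ⟨i, fun _ => hi⟩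
      · exact ⟨⟨0, bs_pos _⟩, fun h' => absurd h' h⟩
    choose y hy using hch
    let P : Set (Σ k : ℕ, (Fin k → Bool)) := {b | ∃ i : Fin (bs b.1), bl b.1 b.2 i ∈ S}
    let D : Set NN := (fun b : Σ k : ℕ, (Fin k → Bool) => bl b.1 b.2 (y b)) '' P
    have hD : Dᶜ ∈ FY := by
      intro t m
      refine ⟨m, fun k hk => ?_⟩
      have h1 : {i : Fin (bs k) | nd t k i ∉ Dᶜ} ⊆ {y ⟨k, rs t k⟩} := by
        intro i hi
        have hi' : nd t k i ∈ D := by
          by_contra hc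
          exact hi hc
        obtain ⟨⟨j, s⟩, _, hj⟩ := hi'
        have hjk : j = k := congrArg Sigma.fst hj
        subst hjk
        have h2 := eq_of_heq (Sigma.mk.inj hj).2
        have h3 := Prod.mk.inj h2
        obtain ⟨h4, h5⟩ := h3
        subst h4
        exact h5.symm
      refine (ncard_le_ncard h1 (toFinite _)).trans ?_
      rw [ncard_singleton, R_of hk]
      exact rr_pos k m
    have hDC : ∀ x ∈ D, pt FY x ∈ C := by
      rintro _ ⟨b, hb, rfl⟩
      exact hy b hb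
    have h1 := finite_of_compact hC hD hDC
    have h2 : P.Finite := by
      refine h1.of_finite_image (f := fun b : Σ k : ℕ, (Fin k → Bool) => bl b.1 b.2 (y b)) ?_
      rintro ⟨k, s⟩ _ ⟨l, s'⟩ _ hkl
      have hjk : k = l := congrArg Sigma.fst hkl
      subst hjk
      have h2 := eq_of_heq (Sigma.mk.inj hkl).2
      have h3 : s = s' := (Prod.mk.inj h2).1
      rw [h3]
    refine (h2.biUnion (t := fun b => range fun i : Fin (bs b.1) => bl b.1 b.2 i) fun b _ => finite_range _).subset ?_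
    rintro ⟨k, s, i⟩ hx
    exact mem_biUnion (show (⟨k, s⟩ : Σ k : ℕ, (Fin k → Bool)) ∈ P from ⟨i, hx⟩) ⟨i, rfl⟩
  refine ((h0.image (pt FY)).union (finite_singleton (pinf FY))).subset ?_
  intro z hz
  rcases fcases z with rfl | ⟨x, rfl⟩
  · exact Or.inr rfl
  · exact Or.inl ⟨x, hz, rfl⟩

instance : Countable (FSp FY) := inferInstanceAs (Countable (Option NN))

/-- The second space has a countable k-network. -/
theorem knet_Y : ∃ N : Set (Set (FSp FY)), N.Countable ∧
    ∀ K U : Set (FSp FY), IsCompact K → IsOpen U → K ⊆ U →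
      ∃ F : Finset (Set (FSp FY)), (↑F : Set (Set (FSp FY))) ⊆ N ∧
        K ⊆ ⋃₀ (↑F : Set (Set (FSp FY))) ∧ ⋃₀ (↑F : Set (Set (FSp FY))) ⊆ U := by
  refine ⟨range fun z : FSp FY => ({z} : Set (FSp FY)), countable_range _, fun K U hK _ hKU => ?_⟩
  have hfin := compact_finite K hK
  classical
  refine ⟨hfin.toFinset.image fun z => ({z} : Set (FSp FY)), ?_, ?_, ?_⟩
  · intro A hA
    rw [Finset.mem_coe, Finset.mem_image] at hA
    obtain ⟨z, _, rfl⟩ := hA
    exact ⟨z, rfl⟩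
  · intro z hz
    refine ⟨{z}, ?_, rfl⟩
    rw [Finset.mem_coe, Finset.mem_image]
    exact ⟨z, hfin.mem_toFinset.mpr hz, rfl⟩
  · rintro z ⟨A, hA, hz⟩
    rw [Finset.mem_coe, Finset.mem_image] at hA
    obtain ⟨w, hw, rfl⟩ := hA
    rw [mem_singleton_iff] at hz
    subst hz
    exact hKU (hfin.mem_toFinset.mp hw)

/-- The last index of a block. -/
def lst (k : ℕ) : Fin (bs k) := ⟨bs k - 1, by have := bs_pos k; omega⟩

theorem R_le_lst (k m : ℕ) : R k m ≤ (lst k).val := by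
  by_cases h : m ≤ k
  · rw [R_of h]
    have := rr_lt_bs k m
    show rr k m ≤ bs k - 1
    omega
  · rw [R_of_not (by omega)]; exact Nat.zero_le _

/-- The sequence along a branch. -/
def Kt (t : ℕ → Bool) : Set (FSp FX) := insert (pinf FX) (range fun k : ℕ => pt FX (nd t k (lst k)))

theorem isCompact_Kt (t : ℕ → Bool) : IsCompact (Kt t) := by
  apply Tendsto.isCompact_insert_range
  intro U hU
  obtain ⟨V, hVU, hV, hp⟩ := mem_nhds_iff.mp hU
  rw [Filter.mem_map, mem_atTop_sets]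
  obtain ⟨k0, hk0⟩ := mem_FX.mp (isOpen_def.mp hV hp) t 0
  exact ⟨k0, fun k hk => hVU (hk0 k hk (lst k) (R_le_lst k 0))⟩

theorem not_knet_X : ¬ ∃ N : Set (Set (FSp FX)), N.Countable ∧
    ∀ K U : Set (FSp FX), IsCompact K → IsOpen U → K ⊆ U →
      ∃ F : Finset (Set (FSp FX)), (↑F : Set (Set (FSp FX))) ⊆ N ∧
        K ⊆ ⋃₀ (↑F : Set (Set (FSp FX))) ∧ ⋃₀ (↑F : Set (Set (FSp FX))) ⊆ U := by
  rintro ⟨N, hN, hnet⟩
  -- finite unions
  let L : Set (Set (FSp FX)) := (fun F : Finset (Set (FSp FX)) => ⋃₀ (↑F : Set (Set (FSp FX)))) ''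
    {F : Finset (Set (FSp FX)) | (↑F : Set (Set (FSp FX))) ⊆ N}
  have hL : L.Countable := by
    refine Countable.image ?_ _
    refine ((countable_setOf_finite_subset hN).preimage_of_injOn
      (f := fun F : Finset (Set (FSp FX)) => (↑F : Set (Set (FSp FX)))) Finset.coe_injective.injOn).mono ?_
    intro F hF
    exact ⟨F.finite_toSet, hF⟩
  have hL2 : ∀ K U : Set (FSp FX), IsCompact K → IsOpen U → K ⊆ U → ∃ M ∈ L, K ⊆ M ∧ M ⊆ U := by
    intro K U hK hU hKU
    obtain ⟨F, h1, h2, h3⟩ := hnet K U hK hU hKU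
    exact ⟨_, ⟨F, h1, rfl⟩, h2, h3⟩
  have hLne : L.Nonempty := by
    obtain ⟨M, hM, _⟩ := hL2 ∅ univ isCompact_empty isOpen_univ (empty_subset _)
    exact ⟨M, hM⟩
  obtain ⟨f, hf⟩ := hL.exists_eq_range hLne
  -- branches inside a set
  let T : ℕ → Set (ℕ → Bool) := fun i => {t | ∀ k, pt FX (nd t k (lst k)) ∈ f i}
  let E : ℕ → ℕ → Set (ℕ → Bool) := fun i n => {t | t ∈ T i ∧ ∀ t' ∈ T i, (∀ j < n, t' j = t j) → t' = t}
  have hE : (⋃ i, ⋃ n, E i n).Countable := by
    refine countable_iUnion fun i => countable_iUnion fun n => ?_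
    have hinj : InjOn (fun t : ℕ → Bool => rs t n) (E i n) := by
      intro t ht t' ht' htt
      refine (ht.2 t' ht'.1 ?_).symm
      intro j hj
      exact (congrFun htt ⟨j, hj⟩).symm
    exact (finite_univ.subset (subset_univ _) |>.of_finite_image hinj).countable
  have hunc : ∃ t : ℕ → Bool, t ∉ ⋃ i, ⋃ n, E i n := by
    by_contra hcon
    push Not at hcon
    have h1 : (univ : Set (ℕ → Bool)).Countable := hE.mono fun t _ => hcon t
    have h2 : Countable (ℕ → Bool) := countable_univ_iff.mp h1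
    obtain ⟨g, hg⟩ := exists_surjective_nat (ℕ → Bool)
    obtain ⟨n, hn⟩ := hg (fun n => !(g n n))
    have h3 := congrFun hn n
    revert h3
    cases g n n <;> simp
  obtain ⟨t, ht⟩ := hunc
  have hstep : ∀ i : ℕ, t ∈ T i → ∃ (t' : ℕ → Bool) (n : ℕ), t' ∈ T i ∧ i ≤ n ∧ (∀ j < n, t' j = t j) ∧ t' n ≠ t n := by
    intro i hi
    have h1 : t ∉ E i i := fun h => ht (mem_iUnion.mpr ⟨i, mem_iUnion.mpr ⟨i, h⟩⟩)
    have h2 : ∃ t' ∈ T i, (∀ j < i, t' j = t j) ∧ t' ≠ t := by
      by_contra hcon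
      push Not at hcon
      exact h1 ⟨hi, hcon⟩
    obtain ⟨t', h3, h4, h5⟩ := h2
    have h6 : ∃ n, t' n ≠ t n := by
      by_contra hcon
      push Not at hcon
      exact h5 (funext hcon)
    classical
    refine ⟨t', Nat.find h6, h3, ?_, fun j hj => ?_, Nat.find_spec h6⟩
    · by_contra hlt
      exact Nat.find_spec h6 (h4 _ (by omega))
    · by_contra hne
      exact Nat.find_min h6 hj hne
  have hch : ∀ i : ℕ, ∃ (t' : ℕ → Bool) (n : ℕ), t ∈ T i → (t' ∈ T i ∧ i ≤ n ∧ (∀ j < n, t' j = t j) ∧ t' n ≠ t n) := by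
    intro i
    by_cases h : t ∈ T i
    · obtain ⟨t', n, h'⟩ := hstep i h
      exact ⟨t', n, fun _ => h'⟩
    · exact ⟨t, 0, fun h' => absurd h' h⟩
  choose t' n hT using hch
  let D : Set NN := {x | ∃ i, t ∈ T i ∧ x = nd (t' i) (n i + 1) (lst (n i + 1))}
  have key : ∀ (r : ℕ → Bool) (k : ℕ) (j : Fin (bs k)) (i : ℕ), nd r k j = nd (t' i) (n i + 1) (lst (n i + 1)) →
      k = n i + 1 ∧ ∀ l < k, r l = t' i l := by
    intro r k j i h
    have hk : k = n i + 1 := congrArg Sigma.fst h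
    subst hk
    have h2 := eq_of_heq (Sigma.mk.inj h).2
    have h3 := (Prod.mk.inj h2).1
    exact ⟨rfl, fun l hl => congrFun h3 ⟨l, hl⟩⟩
  have hD1 : ∀ (k : ℕ) (j : Fin (bs k)), nd t k j ∉ D := by
    rintro k j ⟨i, hi, h⟩
    obtain ⟨hk, h2⟩ := key t k j i h
    exact (hT i hi).2.2.2 (h2 (n i) (by omega)).symm
  have hD : Dᶜ ∈ FX := by
    intro r m
    by_cases hr : r = t
    · subst hr
      exact ⟨0, fun k _ j _ => hD1 k j⟩
    · obtain ⟨l, hl⟩ : ∃ l, r l ≠ t l := by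
        by_contra hcon
        push Not at hcon
        exact hr (funext hcon)
      refine ⟨l + 2, fun k hk j _ => ?_⟩
      rintro ⟨i, hi, h⟩
      obtain ⟨hk2, h2⟩ := key r k j i h
      exact hl ((h2 l (by omega)).trans ((hT i hi).2.2.1 l (by omega)))
  let U : Set (FSp FX) := {z | ∀ x ∈ D, z ≠ pt FX x}
  have hU : IsOpen U := by
    rw [isOpen_def]
    intro _
    refine mem_of_superset hD fun y hy x hx h => hy ?_
    rw [pt_inj h]; exact hx
  have hKU : Kt t ⊆ U := by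
    rintro z (rfl | ⟨k, rfl⟩)
    · intro x _ h; exact pt_ne x h.symm
    · intro x hx h
      have h' := pt_inj h
      subst h'
      exact hD1 k (lst k) hx
  obtain ⟨M, hM, hKM, hMU⟩ := hL2 (Kt t) U (isCompact_Kt t) hU hKU
  rw [hf] at hM
  obtain ⟨i, rfl⟩ := hM
  have hti : t ∈ T i := fun k => hKM (Or.inr ⟨k, rfl⟩)
  have h1 := (hT i hti).1 (n i + 1)
  exact hMU h1 _ ⟨i, hti, rfl⟩ rfl

/-- The block maps. -/
noncomputable def TT (k : ℕ) : (Fin (bs k) → ℝ) ≃ (Fin (bs k) → ℝ) := (exists_block k).choose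

theorem TT_spec (k : ℕ) : (∃ C, LipschitzWith C (TT k)) ∧ (∃ C, LipschitzWith C (TT k).symm) ∧
    (∀ m, m < k → ∀ (x : Fin (bs k) → ℝ) (δ : ℝ), 0 ≤ δ → (Finset.univ.filter fun i => δ < |x i|).card ≤ rr k (m + 1) →
      ∀ i : Fin (bs k), rr k m ≤ i.val → |TT k x i| ≤ 45 ^ (m + 1) * δ) ∧
    (∀ m, m < k → ∀ (y : Fin (bs k) → ℝ) (δ : ℝ), 0 ≤ δ → (∀ i : Fin (bs k), rr k (m + 1) ≤ i.val → |y i| ≤ δ) →
      (Finset.univ.filter fun i => 45 ^ (m + 1) * δ < |(TT k).symm y i|).card ≤ rr k m) :=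
  (exists_block k).choose_spec

/-- Transport of functions along a family of block maps. -/
noncomputable def tr (S : (k : ℕ) → (Fin (bs k) → ℝ) → (Fin (bs k) → ℝ)) (F G : Filter NN)
    (g : FSp F → ℝ) : FSp G → ℝ := fun z => match z with
  | none => g (pinf F)
  | some x => g (pinf F) + S x.1 (fun j => g (pt F (bl x.1 x.2.1 j)) - g (pinf F)) x.2.2

theorem tr_inf (S : (k : ℕ) → (Fin (bs k) → ℝ) → (Fin (bs k) → ℝ)) (F G : Filter NN) (g : FSp F → ℝ) :
    tr S F G g (pinf G) = g (pinf F) := rfl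

theorem tr_pt (S : (k : ℕ) → (Fin (bs k) → ℝ) → (Fin (bs k) → ℝ)) (F G : Filter NN) (g : FSp F → ℝ)
    (k : ℕ) (s : Fin k → Bool) (i : Fin (bs k)) :
    tr S F G g (pt G (bl k s i)) = g (pinf F) + S k (fun j => g (pt F (bl k s j)) - g (pinf F)) i := rfl

theorem tr_tr {S S' : (k : ℕ) → (Fin (bs k) → ℝ) → (Fin (bs k) → ℝ)} (h : ∀ k x, S' k (S k x) = x)
    (F G : Filter NN) (g : FSp F → ℝ) : tr S' G F (tr S F G g) = g := by
  funext z
  rcases fcases z with rfl | ⟨⟨k, s, i⟩, rfl⟩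
  · rfl
  · show tr S' G F (tr S F G g) (pt F (bl k s i)) = g (pt F (bl k s i))
    rw [tr_pt, tr_inf]
    have h1 : (fun j => tr S F G g (pt G (bl k s j)) - g (pinf F)) =
        S k (fun j => g (pt F (bl k s j)) - g (pinf F)) := by
      funext j
      rw [tr_pt, add_sub_cancel_left]
    rw [h1, h]
    ring

theorem tr_uc {S : (k : ℕ) → (Fin (bs k) → ℝ) → (Fin (bs k) → ℝ)} (hS : ∀ k, ∃ C, LipschitzWith C (S k))
    (F G : Filter NN) : UniformContinuous (tr S F G) := by
  rw [uniformContinuous_pi]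
  intro z
  rcases fcases z with rfl | ⟨⟨k, s, i⟩, rfl⟩
  · exact Pi.uniformContinuous_proj (fun _ : FSp F => ℝ) (pinf F)
  · obtain ⟨C, hC⟩ := hS k
    have h1 : UniformContinuous (fun g : FSp F → ℝ => fun j : Fin (bs k) => g (pt F (bl k s j)) - g (pinf F)) := by
      rw [uniformContinuous_pi]
      intro j
      exact (Pi.uniformContinuous_proj (fun _ : FSp F => ℝ) (pt F (bl k s j))).sub
        (Pi.uniformContinuous_proj (fun _ : FSp F => ℝ) (pinf F))
    have h2 := (Pi.uniformContinuous_proj (fun _ : Fin (bs k) => ℝ) i).comp (hC.uniformContinuous.comp h1)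
    exact (Pi.uniformContinuous_proj (fun _ : FSp F => ℝ) (pinf F)).add h2

theorem cont_YX {g : FSp FY → ℝ} (hg : Continuous g) : Continuous (tr (fun k => TT k) FY FX g) := by
  rw [continuous_iff_mem] at hg ⊢
  intro ε hε t m
  set δ : ℝ := ε / (2 * 45 ^ (m + 1)) with hδ
  have hpow : (0 : ℝ) < 45 ^ (m + 1) := by positivity
  have hδ0 : 0 < δ := by positivity
  have hδ1 : 45 ^ (m + 1) * δ < ε := by
    rw [hδ]
    have : (45 : ℝ) ^ (m + 1) * (ε / (2 * 45 ^ (m + 1))) = ε / 2 := by field_simp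
    rw [this]; linarith
  obtain ⟨k0, hk0⟩ := mem_FY.mp (hg δ hδ0) t (m + 1)
  refine ⟨max k0 (m + 1), fun k hk' i hi1 => ?_⟩
  show |tr (fun k => TT k) FY FX g (pt FX (bl k (rs t k) i)) - g (pinf FY)| < ε
  rw [tr_pt, add_sub_cancel_left]
  have hi1' : rr k m ≤ i.val := by
    have : R k m ≤ i.val := hi1
    rwa [R_of (by omega)] at this
  refine lt_of_le_of_lt ((TT_spec k).2.2.1 m (by omega) _ δ hδ0.le ?_ i hi1') hδ1
  have h1 := hk0 k (by omega)
  rw [R_of (by omega)] at h1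
  refine le_trans ?_ h1
  rw [← ncard_coe_finset]
  refine ncard_le_ncard ?_ (toFinite _)
  intro j hj
  rw [Finset.mem_coe, Finset.mem_filter] at hj
  intro hj'
  have h2 : |g (pt FY (bl k (rs t k) j)) - g (pinf FY)| < δ := hj'
  linarith [hj.2]

theorem cont_XY {f : FSp FX → ℝ} (hf : Continuous f) : Continuous (tr (fun k => (TT k).symm) FX FY f) := by
  rw [continuous_iff_mem] at hf ⊢
  intro ε hε t m
  set δ : ℝ := ε / (2 * 45 ^ (m + 1)) with hδ
  have hpow : (0 : ℝ) < 45 ^ (m + 1) := by positivity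
  have hδ0 : 0 < δ := by positivity
  have hδ1 : 45 ^ (m + 1) * δ < ε := by
    rw [hδ]
    have : (45 : ℝ) ^ (m + 1) * (ε / (2 * 45 ^ (m + 1))) = ε / 2 := by field_simp
    rw [this]; linarith
  obtain ⟨k0, hk0⟩ := mem_FX.mp (hf δ hδ0) t (m + 1)
  refine ⟨max k0 (m + 1), fun k hk => ?_⟩
  rw [R_of (by omega)]
  have h2 : ∀ i : Fin (bs k), rr k (m + 1) ≤ i.val → |f (pt FX (bl k (rs t k) i)) - f (pinf FX)| ≤ δ := by
    intro i hi
    have h3 := hk0 k (by omega) i (by rw [R_of (by omega)]; exact hi)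
    exact le_of_lt h3
  have h3 := (TT_spec k).2.2.2 m (by omega) (fun j => f (pt FX (bl k (rs t k) j)) - f (pinf FX)) δ hδ0.le h2
  refine le_trans ?_ h3
  rw [← ncard_coe_finset]
  refine ncard_le_ncard ?_ (toFinite _)
  intro j hj
  rw [Finset.mem_coe, Finset.mem_filter]
  refine ⟨Finset.mem_univ _, ?_⟩
  by_contra hc
  apply hj
  show |tr (fun k => (TT k).symm) FX FY f (pt FY (bl k (rs t k) j)) - f (pinf FX)| < ε
  rw [tr_pt, add_sub_cancel_left]
  exact lt_of_le_of_lt (not_lt.mp hc) hδ1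

/-- The uniform homeomorphism. -/
noncomputable def UE : UniformEquiv {g : FSp FY → ℝ // Continuous g} {f : FSp FX → ℝ // Continuous f} where
  toFun g := ⟨tr (fun k => TT k) FY FX g.1, cont_YX g.2⟩
  invFun f := ⟨tr (fun k => (TT k).symm) FX FY f.1, cont_XY f.2⟩
  left_inv g := Subtype.ext (tr_tr (fun k x => (TT k).symm_apply_apply x) FY FX g.1)
  right_inv f := Subtype.ext (tr_tr (fun k x => (TT k).apply_symm_apply x) FX FY f.1)
  uniformContinuous_toFun :=
    ((tr_uc (fun k => (TT_spec k).1) FY FX).comp uniformContinuous_subtype_val).subtype_mk _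
  uniformContinuous_invFun :=
    ((tr_uc (fun k => (TT_spec k).2.1) FX FY).comp uniformContinuous_subtype_val).subtype_mk _

end Pool.Agent.Helper27.KN
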